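import Pool.Agent.R154.FV.Bad3

/-!
# The bad classes of representations modulo a prime `l`, three exponents
-/

set_option autoImplicit false
open Finset

namespace Pool.Agent.R154.FV
open Pool.Agent.W65.FS Pool.Agent.TH696.FA Pool.Agent.R154.FT

/-- the bad classes -/
noncomputable def BB3 (n K Z : ℕ) (w : Fin 4 → ℤ) (P Q N P' Q' N' : ℤ) (l : ℕ) [Fact l.Prime] :
    Finset (Fin 4 → ZMod l) := by
  classical
  exact (C4 l n).filter (fun u => ∃ k : Fin 5 × Fin 5, ∃ p ∈ bad3 K Z w l,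
    ((rc P Q N k.1 : ℤ) : ZMod l) * u 0 - ((rs P Q N k.1 : ℤ) : ZMod l) * u 1 = ((N ^ 2 : ℤ) : ZMod l) * p.1 ∧
    ((rs P Q N k.1 : ℤ) : ZMod l) * u 0 + ((rc P Q N k.1 : ℤ) : ZMod l) * u 1 = ((N ^ 2 : ℤ) : ZMod l) * p.2.1 ∧
    ((rc P' Q' N' k.2 : ℤ) : ZMod l) * u 2 - ((rs P' Q' N' k.2 : ℤ) : ZMod l) * u 3 = ((N' ^ 2 : ℤ) : ZMod l) * p.2.2)

theorem mem_BB3 (n K Z : ℕ) (w : Fin 4 → ℤ) (P Q N P' Q' N' : ℤ) (l : ℕ) [Fact l.Prime] (u : Fin 4 → ZMod l) :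
    u ∈ BB3 n K Z w P Q N P' Q' N' l ↔ u ∈ C4 l n ∧ ∃ k : Fin 5 × Fin 5, ∃ p ∈ bad3 K Z w l,
    ((rc P Q N k.1 : ℤ) : ZMod l) * u 0 - ((rs P Q N k.1 : ℤ) : ZMod l) * u 1 = ((N ^ 2 : ℤ) : ZMod l) * p.1 ∧
    ((rs P Q N k.1 : ℤ) : ZMod l) * u 0 + ((rc P Q N k.1 : ℤ) : ZMod l) * u 1 = ((N ^ 2 : ℤ) : ZMod l) * p.2.1 ∧
    ((rc P' Q' N' k.2 : ℤ) : ZMod l) * u 2 - ((rs P' Q' N' k.2 : ℤ) : ZMod l) * u 3 = ((N' ^ 2 : ℤ) : ZMod l) * p.2.2 := by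
  classical
  unfold BB3
  rw [mem_filter]

theorem three_lin (l : ℕ) [Fact l.Prime] (n : ℕ) (c s c' s' M M' α β γ : ZMod l) (hM : M ≠ 0) (hM' : M' ≠ 0)
    (e1 : c ^ 2 + s ^ 2 = M ^ 2) (e2 : c' ^ 2 + s' ^ 2 = M' ^ 2) :
    (univ.filter (fun u : Fin 4 → ZMod l => ∑ i, u i ^ 2 = (n : ZMod l) ∧ c * u 0 - s * u 1 = α ∧
      s * u 0 + c * u 1 = β ∧ c' * u 2 - s' * u 3 = γ)).card ≤ 2 := by
  classical
  set W := univ.filter (fun u : Fin 4 → ZMod l => ∑ i, u i ^ 2 = (n : ZMod l) ∧ c * u 0 - s * u 1 = α ∧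
      s * u 0 + c * u 1 = β ∧ c' * u 2 - s' * u 3 = γ) with hW
  have hM2 : M ^ 2 ≠ 0 := pow_ne_zero _ hM
  have hM2' : M' ^ 2 ≠ 0 := pow_ne_zero _ hM'
  refine le_trans ?_ (roots_le l (M' ^ 2 * (n - (α ^ 2 + β ^ 2) / M ^ 2) - γ ^ 2))
  refine Finset.card_le_card_of_injOn (fun u => s' * u 2 + c' * u 3) ?_ ?_
  · intro u hu
    rw [mem_coe, hW, mem_filter] at hu
    obtain ⟨-, hq, h1, h2, h3⟩ := hu
    rw [Fin.sum_univ_four] at hq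
    rw [mem_coe, mem_filter]
    refine ⟨mem_univ _, ?_⟩
    have a1 : (α ^ 2 + β ^ 2) / M ^ 2 = u 0 ^ 2 + u 1 ^ 2 := by
      rw [div_eq_iff hM2, ← h1, ← h2, ← e1]
      ring
    rw [a1, ← hq, ← h3, ← e2]
    ring
  · intro u hu v hv he
    rw [mem_coe, hW, mem_filter] at hu hv
    obtain ⟨-, -, h1, h2, h3⟩ := hu
    obtain ⟨-, -, k1, k2, k3⟩ := hv
    simp only at he
    have f0 : M ^ 2 * (u 0 - v 0) = 0 := by
      rw [← e1]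
      linear_combination c * (h1 - k1) + s * (h2 - k2)
    have f1 : M ^ 2 * (u 1 - v 1) = 0 := by
      rw [← e1]
      linear_combination c * (h2 - k2) - s * (h1 - k1)
    have f2 : M' ^ 2 * (u 2 - v 2) = 0 := by
      rw [← e2]
      linear_combination c' * (h3 - k3) + s' * he
    have f3 : M' ^ 2 * (u 3 - v 3) = 0 := by
      rw [← e2]
      linear_combination c' * he - s' * (h3 - k3)
    have z0 := (mul_eq_zero.1 f0).resolve_left hM2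
    have z1 := (mul_eq_zero.1 f1).resolve_left hM2
    have z2 := (mul_eq_zero.1 f2).resolve_left hM2'
    have z3 := (mul_eq_zero.1 f3).resolve_left hM2'
    funext i
    fin_cases i
    · show u 0 = v 0; linear_combination z0
    · show u 1 = v 1; linear_combination z1
    · show u 2 = v 2; linear_combination z2
    · show u 3 = v 3; linear_combination z3

theorem card_BB3 (n K Z : ℕ) (w : Fin 4 → ℤ) (P Q N P' Q' N' : ℤ) (hs : P ^ 2 + Q ^ 2 = N ^ 2)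
    (hs' : P' ^ 2 + Q' ^ 2 = N' ^ 2) (l : ℕ) [Fact l.Prime] (hlK : ¬ l ∣ K) (hlN : ¬ (l : ℤ) ∣ N)
    (hlN' : ¬ (l : ℤ) ∣ N') : (BB3 n K Z w P Q N P' Q' N' l).card ≤ 50 * Z * l := by
  classical
  have hN : (N : ZMod l) ≠ 0 := by
    rw [Ne, ZMod.intCast_zmod_eq_zero_iff_dvd]
    exact hlN
  have hN' : (N' : ZMod l) ≠ 0 := by
    rw [Ne, ZMod.intCast_zmod_eq_zero_iff_dvd]
    exact hlN'
  have hsub : BB3 n K Z w P Q N P' Q' N' l ⊆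
      ((univ : Finset (Fin 5 × Fin 5)) ×ˢ bad3 K Z w l).biUnion (fun kp =>
        univ.filter (fun u : Fin 4 → ZMod l => ∑ i, u i ^ 2 = (n : ZMod l) ∧
    ((rc P Q N kp.1.1 : ℤ) : ZMod l) * u 0 - ((rs P Q N kp.1.1 : ℤ) : ZMod l) * u 1 = ((N ^ 2 : ℤ) : ZMod l) * kp.2.1 ∧
    ((rs P Q N kp.1.1 : ℤ) : ZMod l) * u 0 + ((rc P Q N kp.1.1 : ℤ) : ZMod l) * u 1 = ((N ^ 2 : ℤ) : ZMod l) * kp.2.2.1 ∧
    ((rc P' Q' N' kp.1.2 : ℤ) : ZMod l) * u 2 - ((rs P' Q' N' kp.1.2 : ℤ) : ZMod l) * u 3 = ((N' ^ 2 : ℤ) : ZMod l) * kp.2.2.2)) := by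
    intro u hu
    rw [mem_BB3] at hu
    obtain ⟨hu1, k, p, hp, e1, e2, e3⟩ := hu
    rw [mem_biUnion]
    refine ⟨(k, p), mem_product.2 ⟨mem_univ _, hp⟩, ?_⟩
    rw [mem_filter]
    unfold C4 at hu1
    rw [mem_filter] at hu1
    exact ⟨mem_univ _, hu1.2.1, e1, e2, e3⟩
  refine (card_le_card hsub).trans (card_biUnion_le.trans ?_)
  have hbound : ∀ kp ∈ (univ : Finset (Fin 5 × Fin 5)) ×ˢ bad3 K Z w l,
      (univ.filter (fun u : Fin 4 → ZMod l => ∑ i, u i ^ 2 = (n : ZMod l) ∧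
    ((rc P Q N kp.1.1 : ℤ) : ZMod l) * u 0 - ((rs P Q N kp.1.1 : ℤ) : ZMod l) * u 1 = ((N ^ 2 : ℤ) : ZMod l) * kp.2.1 ∧
    ((rs P Q N kp.1.1 : ℤ) : ZMod l) * u 0 + ((rc P Q N kp.1.1 : ℤ) : ZMod l) * u 1 = ((N ^ 2 : ℤ) : ZMod l) * kp.2.2.1 ∧
    ((rc P' Q' N' kp.1.2 : ℤ) : ZMod l) * u 2 - ((rs P' Q' N' kp.1.2 : ℤ) : ZMod l) * u 3 = ((N' ^ 2 : ℤ) : ZMod l) * kp.2.2.2)).card ≤ 2 := by
    intro kp _
    apply three_lin l n _ _ _ _ ((N : ZMod l) ^ 2) ((N' : ZMod l) ^ 2) _ _ _ (pow_ne_zero _ hN) (pow_ne_zero _ hN')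
    · have h3 := rc_rs P Q N hs kp.1.1
      have h4 : ((rc P Q N kp.1.1 : ℤ) : ZMod l) ^ 2 + ((rs P Q N kp.1.1 : ℤ) : ZMod l) ^ 2 = (N : ZMod l) ^ 4 := by
        have := congrArg (fun z : ℤ => (z : ZMod l)) h3
        push_cast at this
        exact this
      rw [h4]
      ring
    · have h3 := rc_rs P' Q' N' hs' kp.1.2
      have h4 : ((rc P' Q' N' kp.1.2 : ℤ) : ZMod l) ^ 2 + ((rs P' Q' N' kp.1.2 : ℤ) : ZMod l) ^ 2 = (N' : ZMod l) ^ 4 := by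
        have := congrArg (fun z : ℤ => (z : ZMod l)) h3
        push_cast at this
        exact this
      rw [h4]
      ring
  refine (sum_le_card_nsmul _ _ _ hbound).trans ?_
  rw [card_product, smul_eq_mul]
  have h5 := bad3_card K Z w l hlK
  have h6 : (univ : Finset (Fin 5 × Fin 5)).card = 25 := by simp
  rw [h6]
  calc 25 * (bad3 K Z w l).card * 2 ≤ 25 * (Z * l) * 2 := by gcongr
    _ = 50 * Z * l := by ring

/-- outside the bad classes no rotated vector is bad -/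
theorem good_rot3 (n K Z : ℕ) (w : Fin 4 → ℤ) (P Q N P' Q' N' : ℤ) (X : Fin 4 → ℤ) (hX : ∑ i, X i ^ 2 = (n : ℤ))
    (hd : N ^ 2 ∣ X 0 ∧ N ^ 2 ∣ X 1 ∧ N' ^ 2 ∣ X 2 ∧ N' ^ 2 ∣ X 3) (l : ℕ) [Fact l.Prime]
    (hln : ¬ l ^ 2 ∣ n) (hN0 : N ≠ 0) (hN0' : N' ≠ 0)
    (hB : (fun i => (X i : ZMod l)) ∉ BB3 n K Z w P Q N P' Q' N' l) (k : Fin 5 × Fin 5) :
    ((((rotv P Q N P' Q' N' k X 0 : ℤ) : ZMod l), ((rotv P Q N P' Q' N' k X 1 : ℤ) : ZMod l),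
      ((rotv P Q N P' Q' N' k X 2 : ℤ) : ZMod l)) : ZMod l × ZMod l × ZMod l) ∉ bad3 K Z w l := by
  classical
  have hN2 : N ^ 2 ≠ 0 := pow_ne_zero _ hN0
  have hN2' : N' ^ 2 ≠ 0 := pow_ne_zero _ hN0'
  obtain ⟨⟨w0, hw0⟩, ⟨w1, hw1⟩, ⟨w2, hw2⟩, ⟨w3, hw3⟩⟩ := hd
  have q0 : X 0 / N ^ 2 = w0 := by rw [hw0]; exact Int.mul_ediv_cancel_left _ hN2
  have q1 : X 1 / N ^ 2 = w1 := by rw [hw1]; exact Int.mul_ediv_cancel_left _ hN2
  have q2 : X 2 / N' ^ 2 = w2 := by rw [hw2]; exact Int.mul_ediv_cancel_left _ hN2'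
  have q3 : X 3 / N' ^ 2 = w3 := by rw [hw3]; exact Int.mul_ediv_cancel_left _ hN2'
  have r0 : rotv P Q N P' Q' N' k X 0 = rc P Q N k.1 * w0 - rs P Q N k.1 * w1 := by
    simp only [rotv, Matrix.cons_val_zero, q0, q1]
  have r1 : rotv P Q N P' Q' N' k X 1 = rs P Q N k.1 * w0 + rc P Q N k.1 * w1 := by
    simp only [rotv, Matrix.cons_val_one, Matrix.cons_val_zero, q0, q1]
  have r2 : rotv P Q N P' Q' N' k X 2 = rc P' Q' N' k.2 * w2 - rs P' Q' N' k.2 * w3 := by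
    simp only [rotv, Matrix.cons_val, q2, q3]
  have hC : (fun i => (X i : ZMod l)) ∈ C4 l n := by
    unfold C4
    rw [mem_filter]
    refine ⟨mem_univ _, ?_, ?_⟩
    · have := congrArg (fun z : ℤ => (z : ZMod l)) hX
      push_cast at this
      exact this
    · intro hz
      apply hln
      have hz' : ∀ i, (l : ℤ) ∣ X i := by
        intro i
        rw [← ZMod.intCast_zmod_eq_zero_iff_dvd]
        exact congrFun hz i
      have h1 : (l : ℤ) ^ 2 ∣ (n : ℤ) := by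
        rw [← hX]
        exact Finset.dvd_sum (fun i _ => pow_dvd_pow_of_dvd (hz' i) 2)
      exact_mod_cast h1
  intro hp
  apply hB
  rw [mem_BB3]
  refine ⟨hC, k, _, hp, ?_, ?_, ?_⟩
  · simp only
    rw [r0, hw0, hw1]
    push_cast
    ring
  · simp only
    rw [r1, hw0, hw1]
    push_cast
    ring
  · simp only
    rw [r2, hw2, hw3]
    push_cast
    ring

end Pool.Agent.R154.FV
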