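import Pool.Agent.R154.FT.BadP
import Pool.Agent.TH696.FA.Final2

/-!
# The bad triples of exponents modulo a prime `l`
-/

set_option autoImplicit false
open Finset

namespace Pool.Agent.R154.FV
open Pool.Agent.W65.FS Pool.Agent.TH696.FA Pool.Agent.R154.FT

/-- the bad triples of exponents modulo `l` -/
noncomputable def bad3 (K Z : ℕ) (u : Fin 4 → ℤ) (l : ℕ) [Fact l.Prime] : Finset (ZMod l × ZMod l × ZMod l) := by
  classical
  exact univ.filter (fun p => ∃ q a b c : ℕ, q.Prime ∧ q ≠ 2 ∧ q ≤ Z ∧ l ∣ orderOf (2 : ZMod q) ∧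
    orderOf (2 : ZMod q) ∣ K * l ∧ (K : ℤ) ∣ a - u 0 ∧ (K : ℤ) ∣ b - u 1 ∧ (K : ℤ) ∣ c - u 2 ∧
    (a : ZMod l) = p.1 ∧ (b : ZMod l) = p.2.1 ∧ (c : ZMod l) = p.2.2 ∧ q ∣ 2 ^ a + 2 ^ b + 2 ^ c + 1)

theorem mem_bad3 (K Z : ℕ) (u : Fin 4 → ℤ) (l : ℕ) [Fact l.Prime] (p : ZMod l × ZMod l × ZMod l) :
    p ∈ bad3 K Z u l ↔ ∃ q a b c : ℕ, q.Prime ∧ q ≠ 2 ∧ q ≤ Z ∧ l ∣ orderOf (2 : ZMod q) ∧
    orderOf (2 : ZMod q) ∣ K * l ∧ (K : ℤ) ∣ a - u 0 ∧ (K : ℤ) ∣ b - u 1 ∧ (K : ℤ) ∣ c - u 2 ∧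
    (a : ZMod l) = p.1 ∧ (b : ZMod l) = p.2.1 ∧ (c : ZMod l) = p.2.2 ∧ q ∣ 2 ^ a + 2 ^ b + 2 ^ c + 1 := by
  classical
  unfold bad3
  rw [mem_filter]
  simp only [mem_univ, true_and]

theorem same_pow {K l q : ℕ} [Fact q.Prime] (hl : l.Prime) (hlK : ¬ l ∣ K) (ho : orderOf (2 : ZMod q) ∣ K * l)
    (a a' : ℕ) (t : ℤ) (h1 : (K : ℤ) ∣ a - t) (h2 : (K : ℤ) ∣ a' - t) (h3 : (a : ZMod l) = a') :
    (2 : ZMod q) ^ a = 2 ^ a' := by
  apply pow_congr_of_dvd (K * l) (orderOf_dvd_iff_pow_eq_one.1 ho)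
  push_cast
  apply IsCoprime.mul_dvd (Nat.isCoprime_iff_coprime.2 ((Nat.Prime.coprime_iff_not_dvd hl).2 hlK).symm)
  · have e : (a : ℤ) - a' = (a - t) - (a' - t) := by ring
    rw [e]
    exact dvd_sub h1 h2
  · rw [← ZMod.intCast_zmod_eq_zero_iff_dvd]
    push_cast
    rw [h3, sub_self]

/-- there are few bad triples -/
theorem bad3_card (K Z : ℕ) (u : Fin 4 → ℤ) (l : ℕ) [Fact l.Prime] (hlK : ¬ l ∣ K) :
    (bad3 K Z u l).card ≤ Z * l := by
  classical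
  have hl : l.Prime := Fact.out
  choose! q a b c hq hq2 hqZ hlo hoK hKa hKb hKc ha hb hc hN using fun p (hp : p ∈ bad3 K Z u l) => (mem_bad3 _ _ _ _ p).1 hp
  have hdvd : ∀ p ∈ bad3 K Z u l, l ∣ q p - 1 := by
    intro p hp
    haveI : Fact (q p).Prime := ⟨hq p hp⟩
    exact (hlo p hp).trans (orderOf_dvd_of_pow_eq_one (ZMod.pow_card_sub_one_eq_one (two_ne (hq2 p hp))))
  have hc : (bad3 K Z u l).card ≤ (Icc 1 (Z / l) ×ˢ ((univ : Finset (ZMod l)) ×ˢ (univ : Finset (ZMod l)))).card := by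
    refine Finset.card_le_card_of_injOn (fun p => ((q p - 1) / l, (p.1, p.2.1))) ?_ ?_
    · intro p hp
      rw [mem_coe] at hp
      rw [mem_coe, mem_product, mem_Icc]
      refine ⟨⟨?_, ?_⟩, mem_product.2 ⟨mem_univ _, mem_univ _⟩⟩
      · obtain ⟨k, hk⟩ := hdvd p hp
        have h1 := (hq p hp).two_le
        simp only
        rw [hk, Nat.mul_div_cancel_left _ hl.pos]
        rcases Nat.eq_zero_or_pos k with h0 | h0
        · rw [h0, mul_zero] at hk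
          omega
        · exact h0
      · simp only
        apply Nat.div_le_div_right
        have := hqZ p hp
        omega
    · intro p hp p' hp' he
      rw [mem_coe] at hp hp'
      simp only [Prod.mk.injEq] at he
      obtain ⟨he1, he2, he3⟩ := he
      obtain ⟨k, hk⟩ := hdvd p hp
      obtain ⟨k', hk'⟩ := hdvd p' hp'
      rw [hk, hk', Nat.mul_div_cancel_left _ hl.pos, Nat.mul_div_cancel_left _ hl.pos] at he1
      have hqq : q p = q p' := by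
        have h1 := (hq p hp).two_le
        have h2 := (hq p' hp').two_le
        rw [← he1] at hk'
        omega
      haveI : Fact (q p).Prime := ⟨hq p hp⟩
      have h20 := two_ne (q := q p) (hq2 p hp)
      have e1 : (2 : ZMod (q p)) ^ (a p) = 2 ^ (a p') :=
        same_pow hl hlK (hoK p hp) _ _ _ (hKa p hp) (hKa p' hp') (by rw [ha p hp, ha p' hp', he2])
      have e1' : (2 : ZMod (q p)) ^ (b p) = 2 ^ (b p') :=
        same_pow hl hlK (hoK p hp) _ _ _ (hKb p hp) (hKb p' hp') (by rw [hb p hp, hb p' hp', he3])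
      have n1 : (2 : ZMod (q p)) ^ (a p) + 2 ^ (b p) + 2 ^ (c p) + 1 = 0 := by
        have := (ZMod.natCast_eq_zero_iff _ _).2 (hN p hp)
        push_cast at this
        exact this
      have n2 : (2 : ZMod (q p)) ^ (a p') + 2 ^ (b p') + 2 ^ (c p') + 1 = 0 := by
        have h3 := hN p' hp'
        rw [← hqq] at h3
        have := (ZMod.natCast_eq_zero_iff _ _).2 h3
        push_cast at this
        exact this
      have e2 : (2 : ZMod (q p)) ^ (c p) = 2 ^ (c p') := by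
        linear_combination n1 - n2 - e1 - e1'
      have e3 : (Units.mk0 (2 : ZMod (q p)) h20) ^ (c p) = (Units.mk0 (2 : ZMod (q p)) h20) ^ (c p') := by
        apply Units.ext
        push_cast
        simp only [Units.val_mk0]
        exact e2
      rw [pow_eq_pow_iff_modEq] at e3
      have e4 : orderOf (Units.mk0 (2 : ZMod (q p)) h20) = orderOf (2 : ZMod (q p)) := by
        rw [← orderOf_units, Units.val_mk0]
      rw [e4] at e3
      have e5 : c p ≡ c p' [MOD l] := e3.of_dvd (hlo p hp)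
      apply Prod.ext he2
      apply Prod.ext he3
      rw [← hc p hp, ← hc p' hp']
      exact (ZMod.natCast_eq_natCast_iff _ _ _).2 e5
  refine hc.trans ?_
  rw [card_product, card_product, Nat.card_Icc, card_univ, ZMod.card, Nat.add_sub_cancel]
  calc Z / l * (l * l) = (Z / l * l) * l := by ring
    _ ≤ Z * l := Nat.mul_le_mul_right _ (Nat.div_mul_le_self Z l)

/-- the classes of the base modulus -/
structure Base (n K D m : ℕ) (u : Fin 4 → ℤ) : Prop where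
  D0 : 0 < D
  D4 : 4 ∣ D
  KD : K ∣ D
  D12 : D = 12 * K
  good : GoodG n D u
  u3 : (2 : ℤ) ∣ u 3
  cop : ∀ x y z : ℕ, (D : ℤ) ∣ (x : ℤ) - u 0 → (D : ℤ) ∣ (y : ℤ) - u 1 → (D : ℤ) ∣ (z : ℤ) - u 2 →
    Nat.Coprime (2 ^ x + 2 ^ y + 2 ^ z + 1) (m * (2 ^ K - 1))

/-- triples of exponents which are nowhere bad -/
theorem no_small3 {n K D m Y Z : ℕ} {u : Fin 4 → ℤ} (hb : Base n K D m u) (hm2 : 2 ∣ m) (B : ℕ → Prop)
    (hB : ∀ d k, B d → k ∣ d → B k)
    (hK : ∀ d : ℕ, 0 < d → d ≤ Z → (∀ p : ℕ, p.Prime → p ∣ d → p ≤ Y) → B d → d ∣ K)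
    (hYZ : Z < Y ^ 2) (x y z : ℕ) (hx : (D : ℤ) ∣ (x : ℤ) - u 0) (hy : (D : ℤ) ∣ (y : ℤ) - u 1)
    (hz : (D : ℤ) ∣ (z : ℤ) - u 2)
    (hl : ∀ l : Nat.Primes, Y < (l : ℕ) → (l : ℕ) ≤ Z →
      (((x : ZMod (l : ℕ)), (y : ZMod (l : ℕ)), (z : ZMod (l : ℕ))) : ZMod (l : ℕ) × ZMod (l : ℕ) × ZMod (l : ℕ)) ∉ bad3 K Z u (l : ℕ))
    (q : ℕ) (hq : q.Prime) (hqN : q ∣ 2 ^ x + 2 ^ y + 2 ^ z + 1) (hqZ : q ≤ Z) :
    q ≠ 2 ∧ ¬ B (orderOf (2 : ZMod q)) := by
  haveI : Fact q.Prime := ⟨hq⟩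
  have hcop := hb.cop x y z hx hy hz
  have hcq : Nat.Coprime q (m * (2 ^ K - 1)) := Nat.Coprime.coprime_dvd_left hqN hcop
  rw [Nat.Prime.coprime_iff_not_dvd hq] at hcq
  have hq2 : q ≠ 2 := by
    intro h
    apply hcq
    rw [h]
    exact hm2.mul_right _
  refine ⟨hq2, fun hBo => ?_⟩
  have h20 := two_ne (q := q) hq2
  have hdvd : orderOf (2 : ZMod q) ∣ q - 1 := orderOf_dvd_of_pow_eq_one (ZMod.pow_card_sub_one_eq_one h20)
  have hq1 : 0 < q - 1 := by have := hq.two_le; omega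
  set d := orderOf (2 : ZMod q) with hd
  have hd0 : 0 < d := Nat.pos_of_dvd_of_pos hdvd hq1
  have hdZ : d < Z := by
    have := Nat.le_of_dvd hq1 hdvd
    omega
  by_cases hsm : ∀ p : ℕ, p.Prime → p ∣ d → p ≤ Y
  · have h1 : d ∣ K := hK d hd0 hdZ.le hsm hBo
    apply hcq
    apply Dvd.dvd.mul_left
    have h2 : (2 : ZMod q) ^ K = 1 := orderOf_dvd_iff_pow_eq_one.1 h1
    rw [← ZMod.natCast_eq_zero_iff, Nat.cast_sub Nat.one_le_two_pow]
    push_cast
    rw [h2]; ring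
  · push Not at hsm
    obtain ⟨l, hlp, hld, hlY⟩ := hsm
    obtain ⟨k, hk⟩ := hld
    have hk0 : 0 < k := by
      rcases Nat.eq_zero_or_pos k with h0 | h0
      · rw [h0, mul_zero] at hk
        omega
      · exact h0
    have hkY : k < Y := by
      by_contra hcon
      push Not at hcon
      have h2 : Y * Y ≤ l * k := Nat.mul_le_mul hlY.le hcon
      rw [pow_two] at hYZ
      omega
    have hlZ : l ≤ Z := by
      have : l ≤ l * k := Nat.le_mul_of_pos_right _ hk0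
      omega
    have hkZ : k ≤ Z := by
      have : k ≤ l * k := Nat.le_mul_of_pos_left k hlp.pos
      omega
    have hkK : k ∣ K := hK k hk0 hkZ (fun p _ hp => (Nat.le_of_dvd hk0 hp).trans hkY.le)
      (hB d k hBo (by rw [hk]; exact dvd_mul_left _ _))
    haveI : Fact l.Prime := ⟨hlp⟩
    apply hl ⟨l, hlp⟩ hlY hlZ
    have hKD : (K : ℤ) ∣ (D : ℤ) := Int.natCast_dvd_natCast.2 hb.KD
    refine (mem_bad3 K Z u l _).2 ⟨q, x, y, z, hq, hq2, hqZ, ?_, ?_, hKD.trans hx, hKD.trans hy, hKD.trans hz, rfl, rfl, rfl, hqN⟩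
    · rw [← hd, hk]
      exact dvd_mul_right _ _
    · rw [← hd, hk, mul_comm l k]
      exact Nat.mul_dvd_mul_right hkK l

end Pool.Agent.R154.FV
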