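import Pool.Agent.R154.FV.Bad3
import Pool.Agent.TH696.FA.Final3

/-!
# The base classes
-/

set_option autoImplicit false
open Finset

namespace Pool.Agent.R154.FV
open Pool.Agent.W65.FS Pool.Agent.TH696.FA Pool.Agent.R154.FT

theorem base2 (n K : ℕ) (hno : Odd n) (hres : 3 ∣ n ∨ n % 32 = 13) (hK : 0 < K)
    (hsq : ∀ l : ℕ, l.Prime → 5 ≤ l → l ^ 2 ∣ K → ¬ (l : ℤ) ∣ (3 * n - 2) * (9 * n - 2)) :
    ∃ (D : ℕ) (u : Fin 4 → ℤ), Base n K D 2 u := by
  obtain ⟨v, L, hL, hKL⟩ := Nat.exists_eq_two_pow_mul_odd hK.ne'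
  have hL0 : L ≠ 0 := by rintro rfl; simp at hL
  obtain ⟨w, M, hM3, hLM⟩ := Nat.exists_eq_pow_mul_and_not_dvd hL0 3 (by norm_num)
  have hM0 : 0 < M := by
    rcases Nat.eq_zero_or_pos M with h0 | h0
    · rw [h0] at hM3; simp at hM3
    · exact h0
  have hM2 : ¬ 2 ∣ M := by
    intro h2
    rw [hLM] at hL
    have h2' : 2 ∣ 3 ^ w * M := h2.mul_left _
    exact (Nat.not_even_iff_odd.2 hL) (even_iff_two_dvd.2 h2')
  have hM6 : Nat.Coprime 6 M := by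
    have e : (6 : ℕ) = 2 * 3 := by norm_num
    rw [e]
    exact Nat.Coprime.mul_left ((Nat.Prime.coprime_iff_not_dvd Nat.prime_two).2 hM2)
      ((Nat.Prime.coprime_iff_not_dvd Nat.prime_three).2 hM3)
  have hKM : K = 2 ^ v * 3 ^ w * M := by rw [hKL, hLM]; ring
  have hsqM : ∀ l : ℕ, l.Prime → l ^ 2 ∣ M → ¬ (l : ℤ) ∣ (3 * n - 2) * (9 * n - 2) := by
    intro l hl hlM
    have hlM' : l ∣ M := (dvd_pow_self l two_ne_zero).trans hlM
    apply hsq l hl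
    · by_contra hlt
      push Not at hlt
      have h2 := hl.two_le
      have h5 : l = 2 ∨ l = 3 ∨ l = 4 := by omega
      rcases h5 with rfl | rfl | rfl
      · exact hM2 hlM'
      · exact hM3 hlM'
      · exact absurd hl (by norm_num)
    · rw [hKM]; exact hlM.mul_left _
  obtain ⟨u, hu, hP⟩ := local2 n v w M hno hM0 hM6 hsqM hres
  have hDK : 2 ^ (v + 2) * 3 ^ (w + 1) * M = 12 * K := by rw [hKM]; ring
  refine ⟨2 ^ (v + 2) * 3 ^ (w + 1) * M, u, ?_, ?_, ?_, hDK, hu, hP.2.1, ?_⟩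
  · rw [hDK]; omega
  · rw [hDK]; exact Dvd.dvd.mul_right (by norm_num) _
  · rw [hDK]; exact dvd_mul_left _ _
  · intro x y z hx hy hz
    have h := coprime2 v w M hM0 hM6 u hP x y z hx hy hz
    rw [← hKM] at h
    exact h

theorem base3 (n K : ℕ) (hno : Odd n) (hK3 : ¬ 3 ∣ K) (hK : 0 < K)
    (hsq : ∀ l : ℕ, l.Prime → 5 ≤ l → l ^ 2 ∣ K → ¬ (l : ℤ) ∣ (3 * n - 2) * (9 * n - 2)) :
    ∃ (D : ℕ) (u : Fin 4 → ℤ), Base n K D 14 u := by
  obtain ⟨v, M, hL, hKM⟩ := Nat.exists_eq_two_pow_mul_odd hK.ne'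
  have hM0 : 0 < M := hL.pos
  have hM3 : ¬ 3 ∣ M := by
    intro h3
    apply hK3
    rw [hKM]; exact h3.mul_left _
  have hM2 : ¬ 2 ∣ M := by
    intro h2
    exact (Nat.not_even_iff_odd.2 hL) (even_iff_two_dvd.2 h2)
  have hM6 : Nat.Coprime 6 M := by
    have e : (6 : ℕ) = 2 * 3 := by norm_num
    rw [e]
    exact Nat.Coprime.mul_left ((Nat.Prime.coprime_iff_not_dvd Nat.prime_two).2 hM2)
      ((Nat.Prime.coprime_iff_not_dvd Nat.prime_three).2 hM3)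
  have hsqM : ∀ l : ℕ, l.Prime → l ^ 2 ∣ M → ¬ (l : ℤ) ∣ (3 * n - 2) * (9 * n - 2) := by
    intro l hl hlM
    have hlM' : l ∣ M := (dvd_pow_self l two_ne_zero).trans hlM
    apply hsq l hl
    · by_contra hlt
      push Not at hlt
      have h2 := hl.two_le
      have h5 : l = 2 ∨ l = 3 ∨ l = 4 := by omega
      rcases h5 with rfl | rfl | rfl
      · exact hM2 hlM'
      · exact hM3 hlM'
      · exact absurd hl (by norm_num)
    · rw [hKM]; exact hlM.mul_left _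
  obtain ⟨u, hu, hP⟩ := local3 n v M hno hM0 hM6 hsqM
  have hDK : 2 ^ (v + 2) * 3 * M = 12 * K := by rw [hKM]; ring
  refine ⟨2 ^ (v + 2) * 3 * M, u, ?_, ?_, ?_, hDK, hu, hP.1, ?_⟩
  · rw [hDK]; omega
  · rw [hDK]; exact Dvd.dvd.mul_right (by norm_num) _
  · rw [hDK]; exact dvd_mul_left _ _
  · intro x y z hx hy hz
    have h := coprime3 v M hM6 u hP x y z hx hy hz
    rw [← hKM] at h
    exact h

end Pool.Agent.R154.FV
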