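import Pool.Agent.R154.FT.Sieve2

/-!
# The sieve over the classes of representations, for arbitrary small sets of classes
-/

set_option autoImplicit false
open Finset

namespace Pool.Agent.R154.FV
open Pool.Agent.W65.FS Pool.Agent.TH696.FA Pool.Agent.R154.FT

/-- **the sieve** -/
theorem sieveG : ∃ C0 : ℝ, 0 < C0 ∧ ∀ (n Y Z : ℕ), 1 ≤ n → ∀ (D' : ℕ), 0 < D' → 4 ∣ D' →
    ∀ u' : Fin 4 → ℤ, GoodG n D' u' → ∀ B0 : (∀ l : Nat.Primes, Finset (Fin 4 → ZMod (l : ℕ))),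
    (∀ l ∈ win Y Z, B0 l ⊆ C4 (l : ℕ) n) → (∀ l ∈ win Y Z, (B0 l).card ≤ 50 * Z * (l : ℕ)) →
    (∀ l ∈ win Y Z, ¬ (l : ℕ) ∣ D') → 12 ≤ Y → 1 ≤ Z → 200 * Z ≤ Y ^ 2 →
    ∀ E0 : ℝ, 100 * (Z : ℝ) * ∑ l ∈ win Y Z, (((l : ℕ) : ℝ) ^ 2)⁻¹ ≤ E0 →
    ∀ r : ℕ, Odd r → 5 * E0 + 1 ≤ ((r + 1 : ℕ) : ℝ) →
    ∃ S ⊆ repsc n D' u',
      ((repsc n D' u').card : ℝ) * (1 / 2 * Real.exp (-(2 * E0))) -
        ((((r + 1) * (Z + 1) ^ r : ℕ) : ℝ) * ((50 * (Z : ℝ) ^ 2 + 1) ^ r *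
          (C0 * ((D' * Z ^ r : ℕ) : ℝ) ^ 11 * (n : ℝ) ^ (19 / 20 : ℝ)))) ≤ (S.card : ℝ) ∧
      ∀ X ∈ S, ∀ l ∈ win Y Z, res l X ∉ B0 l := by
  classical
  obtain ⟨C0, hC0, heq⟩ := equi
  refine ⟨C0, hC0, ?_⟩
  intro n Y Z hn D' hD'0 h4 u' hu' B0 hB0 hB0c hl hY hZ hYZ E0 hE0' r hr hrE
  set B : ∀ l : Nat.Primes, Finset (Fin 4 → ZMod (l : ℕ)) :=
    fun l => if l ∈ win Y Z then B0 l else ∅ with hB
  set C : ∀ l : Nat.Primes, Finset (Fin 4 → ZMod (l : ℕ)) :=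
    fun l => if Y < (l : ℕ) then C4 (l : ℕ) n else Finset.univ with hC
  have hBC : ∀ l, B l ⊆ C l := by
    intro l
    simp only [hB, hC]
    by_cases h1 : l ∈ win Y Z
    · rw [if_pos h1, if_pos ((mem_win Y Z l).1 h1).1]
      exact hB0 l h1
    · rw [if_neg h1]
      exact Finset.empty_subset _
  have hCc : ∀ l : Nat.Primes, Y < (l : ℕ) → (l : ℕ) ^ 3 ≤ 2 * (C4 (l : ℕ) n).card :=
    fun l h1 => C4_card (l : ℕ) n (by omega)
  have hCn : ∀ l, (C l).Nonempty := by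
    intro l
    simp only [hC]
    by_cases h1 : Y < (l : ℕ)
    · rw [if_pos h1]
      rw [← Finset.card_pos]
      have h2 := hCc l h1
      have h3 : 0 < (l : ℕ) ^ 3 := by have := l.2.pos; positivity
      omega
    · rw [if_neg h1]
      exact Finset.univ_nonempty
  have hBc : ∀ l ∈ win Y Z, (B l).card ≤ 50 * Z * (l : ℕ) := by
    intro l hl'
    simp only [hB]
    rw [if_pos hl']
    exact hB0c l hl'
  have hBM : ∀ l ∈ win Y Z, ((B l).card : ℝ) ≤ 50 * (Z : ℝ) ^ 2 + 1 := by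
    intro l hl'
    have h1 := hBc l hl'
    have h2 := ((mem_win Y Z l).1 hl').2
    have h3 : (B l).card ≤ 50 * Z ^ 2 + 1 := by
      calc (B l).card ≤ 50 * Z * (l : ℕ) := h1
        _ ≤ 50 * Z * Z := Nat.mul_le_mul_left _ h2
        _ ≤ 50 * Z ^ 2 + 1 := by nlinarith
    exact_mod_cast h3
  set e : ℝ := C0 * ((D' * Z ^ r : ℕ) : ℝ) ^ 11 * (n : ℝ) ^ (19 / 20 : ℝ) with he
  have he0 : 0 ≤ e := by positivity
  have hee : ∀ T ⊆ win Y Z, T.card ≤ r → ∀ c ∈ T.pi C, ∀ c' ∈ T.pi C,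
      |((cls (repsc n D' u') res T c).card : ℝ) - (cls (repsc n D' u') res T c').card| ≤ e := by
    intro T hT hTr c hc c' hc'
    have hpi : ∀ c, c ∈ T.pi C → c ∈ T.pi (fun l : Nat.Primes => C4 (l : ℕ) n) := by
      intro c hc
      rw [Finset.mem_pi] at hc ⊢
      intro a ha
      have h1 := hc a ha
      have h2 := ((mem_win Y Z a).1 (hT ha)).1
      simp only [hC] at h1
      rw [if_pos h2] at h1
      exact h1
    refine (heq n D' hn hD'0 h4 u' hu' T (fun l hl' => hl l (hT hl')) c (hpi c hc) c' (hpi c' hc')).trans ?_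
    rw [he]
    have hmT : mT T ≤ Z ^ r := by
      calc mT T ≤ ∏ _l ∈ T, Z := by
            unfold mT
            exact Finset.prod_le_prod' (fun l hl' => ((mem_win Y Z l).1 (hT hl')).2)
        _ = Z ^ T.card := by rw [Finset.prod_const]
        _ ≤ Z ^ r := Nat.pow_le_pow_right hZ hTr
    have h5 : ((D' * mT T : ℕ) : ℝ) ≤ ((D' * Z ^ r : ℕ) : ℝ) := by
      exact_mod_cast Nat.mul_le_mul_left _ hmT
    gcongr
  have hbon := bonf (repsc n D' u') res (win Y Z) B C hBC hCn r hr e (50 * (Z : ℝ) ^ 2 + 1) he0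
    (by nlinarith [sq_nonneg (Z : ℝ)]) hBM hee
  set β : Nat.Primes → ℝ := fun l => ((B l).card : ℝ) / (C l).card with hβ
  have hβ0 : ∀ l, 0 ≤ β l := fun l => by positivity
  have hYr : (12 : ℝ) ≤ Y := by exact_mod_cast hY
  have hβ1 : ∀ l ∈ win Y Z, β l ≤ 100 * Z * (((l : ℕ) : ℝ) ^ 2)⁻¹ := by
    intro l hl'
    have h1 := ((mem_win Y Z l).1 hl').1
    have h2 : (C l).card = (C4 (l : ℕ) n).card := by
      simp only [hC]
      rw [if_pos h1]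
    have h3 : ((l : ℕ) : ℝ) ^ 3 ≤ 2 * ((C l).card : ℝ) := by
      rw [h2]
      exact_mod_cast hCc l h1
    have h4 : ((B l).card : ℝ) ≤ 50 * Z * (l : ℕ) := by exact_mod_cast hBc l hl'
    have hl0 : (0 : ℝ) < (l : ℕ) := by exact_mod_cast l.2.pos
    have hC0' : (0 : ℝ) < (C l).card := by exact_mod_cast Finset.card_pos.2 (hCn l)
    simp only [hβ]
    rw [div_le_iff₀ hC0']
    calc ((B l).card : ℝ) ≤ 50 * Z * (l : ℕ) := h4
      _ = 50 * Z * (((l : ℕ) : ℝ) ^ 2)⁻¹ * ((l : ℕ) : ℝ) ^ 3 := by field_simp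
      _ ≤ 50 * Z * (((l : ℕ) : ℝ) ^ 2)⁻¹ * (2 * ((C l).card : ℝ)) := by gcongr
      _ = _ := by ring
  have hβ2 : ∀ l ∈ win Y Z, β l ≤ 1 / 2 := by
    intro l hl'
    refine (hβ1 l hl').trans ?_
    have h1 := ((mem_win Y Z l).1 hl').1
    have h2 : (200 : ℝ) * Z ≤ (Y : ℝ) ^ 2 := by exact_mod_cast hYZ
    have h3 : (Y : ℝ) ≤ (l : ℕ) := by exact_mod_cast h1.le
    have h4 : (Y : ℝ) ^ 2 ≤ ((l : ℕ) : ℝ) ^ 2 := by gcongr
    have hl0 : (0 : ℝ) < (l : ℕ) := by exact_mod_cast l.2.pos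
    rw [mul_inv_le_iff₀ (by positivity)]
    linarith
  have hsum : ∑ l ∈ win Y Z, β l ≤ E0 := by
    calc ∑ l ∈ win Y Z, β l ≤ ∑ l ∈ win Y Z, 100 * Z * (((l : ℕ) : ℝ) ^ 2)⁻¹ := Finset.sum_le_sum hβ1
      _ = 100 * Z * ∑ l ∈ win Y Z, (((l : ℕ) : ℝ) ^ 2)⁻¹ := by rw [← Finset.mul_sum]
      _ ≤ E0 := hE0'
  set E : ℝ := ∑ l ∈ win Y Z, β l with hE
  have hE0 : 0 ≤ E := Finset.sum_nonneg fun l _ => hβ0 l
  have hprod : Real.exp (-(2 * E)) ≤ ∏ l ∈ win Y Z, (1 - β l) := by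
    calc Real.exp (-(2 * E)) = ∏ l ∈ win Y Z, Real.exp (-(2 * β l)) := by
          rw [← Real.exp_sum]
          congr 1
          rw [hE, Finset.mul_sum, Finset.sum_neg_distrib]
      _ ≤ _ := by
          apply Finset.prod_le_prod
          · intro l _
            positivity
          · intro l hl'
            exact exp_le_one_sub _ (hβ0 l) (hβ2 l hl')
  have htail := tail_bound E hE0 (r + 1) (by linarith)
  have hmain : 1 / 2 * Real.exp (-(2 * E0)) ≤ ∏ l ∈ win Y Z, (1 - β l) - E ^ (r + 1) / (r + 1).factorial := by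
    have h1 : Real.exp (-(2 * E0)) ≤ Real.exp (-(2 * E)) := by
      apply Real.exp_le_exp.2
      linarith
    linarith
  refine ⟨(repsc n D' u').filter (fun X => ∀ l ∈ win Y Z, res l X ∉ B l), Finset.filter_subset _ _, ?_, ?_⟩
  · refine le_trans ?_ hbon
    have h1 : (((win Y Z).powerset.filter (fun T => T.card ≤ r)).card : ℝ) ≤ (((r + 1) * (Z + 1) ^ r : ℕ) : ℝ) := by
      exact_mod_cast card_small (win Y Z) Z r (card_win Y Z)
    have h2 : ((repsc n D' u').card : ℝ) * (1 / 2 * Real.exp (-(2 * E0))) ≤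
        ((repsc n D' u').card : ℝ) * (∏ l ∈ win Y Z, (1 - β l) - E ^ (r + 1) / (r + 1).factorial) := by
      gcongr
    have h3 : (((win Y Z).powerset.filter (fun T => T.card ≤ r)).card : ℝ) * ((50 * (Z : ℝ) ^ 2 + 1) ^ r * e) ≤
        (((r + 1) * (Z + 1) ^ r : ℕ) : ℝ) * ((50 * (Z : ℝ) ^ 2 + 1) ^ r * e) := by
      gcongr
    linarith
  · intro X hX l hl'
    rw [Finset.mem_filter] at hX
    have h2 := hX.2 l hl'
    simp only [hB] at h2
    rw [if_pos hl'] at h2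
    exact h2

end Pool.Agent.R154.FV
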