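import Pool.Agent.R154.FT.Core3
import Pool.Agent.R154.FV.SieveG
import Pool.Agent.R154.FV.BB3

/-!
# From the sieve to nonnegative representations `n = x² + y² + z² + 4w²`
-/

set_option autoImplicit false
open Finset

namespace Pool.Agent.R154.FV
open Pool.Agent.W65.FS Pool.Agent.TH696.FA Pool.Agent.R154.FT

/-- from good nonnegative vectors to quadruples -/
theorem quads3 (n K D Z Y : ℕ) (w0 u : Fin 4 → ℤ) (hD2 : (2 : ℤ) ∣ (D : ℤ)) (hu3 : (2 : ℤ) ∣ u 3)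
    (O : Finset (Fin 4 → ℤ)) (hO : ∀ W ∈ O, W ∈ orth n D u ∧
      ∀ l ∈ win Y Z, ((((W 0 : ℤ) : ZMod (l : ℕ)), ((W 1 : ℤ) : ZMod (l : ℕ)), ((W 2 : ℤ) : ZMod (l : ℕ))) :
    ZMod (l : ℕ) × ZMod (l : ℕ) × ZMod (l : ℕ)) ∉ bad3 K Z w0 (l : ℕ)) :
    ∃ T : Finset (ℕ × ℕ × ℕ × ℕ), T.card = O.card ∧
      ∀ x y z w : ℕ, (x, y, z, w) ∈ T → n = x ^ 2 + y ^ 2 + z ^ 2 + 4 * w ^ 2 ∧
        (D : ℤ) ∣ (x : ℤ) - u 0 ∧ (D : ℤ) ∣ (y : ℤ) - u 1 ∧ (D : ℤ) ∣ (z : ℤ) - u 2 ∧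
        ∀ l : Nat.Primes, Y < (l : ℕ) → (l : ℕ) ≤ Z →
      (((x : ZMod (l : ℕ)), (y : ZMod (l : ℕ)), (z : ZMod (l : ℕ))) : ZMod (l : ℕ) × ZMod (l : ℕ) × ZMod (l : ℕ)) ∉ bad3 K Z w0 (l : ℕ) := by
  classical
  refine ⟨O.image (fun X => ((X 0).toNat, (X 1).toNat, (X 2).toNat, (X 3).toNat / 2)), ?_, ?_⟩
  · rw [Finset.card_image_of_injOn]
    intro X hX Y hY hXY
    have hX' := (mem_orth _ _ _ _).1 (hO X hX).1
    have hY' := (mem_orth _ _ _ _).1 (hO Y hY).1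
    simp only [Prod.mk.injEq] at hXY
    obtain ⟨e0, e1, e2, e3⟩ := hXY
    have g := hX'.2
    have g' := hY'.2
    have k3 := hD2.trans (hX'.1.2 3)
    have k3' := hD2.trans (hY'.1.2 3)
    funext i
    fin_cases i
    · have a1 := g 0; have a2 := g' 0
      show X 0 = Y 0
      omega
    · have a1 := g 1; have a2 := g' 1
      show X 1 = Y 1
      omega
    · have a1 := g 2; have a2 := g' 2
      show X 2 = Y 2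
      omega
    · have a1 := g 3; have a2 := g' 3
      show X 3 = Y 3
      omega
  · intro x y z w' hxyzw
    rw [Finset.mem_image] at hxyzw
    obtain ⟨X, hX, hXe⟩ := hxyzw
    obtain ⟨hX1, hXG⟩ := hO X hX
    obtain ⟨⟨hsum, hcong⟩, hpos⟩ := (mem_orth _ _ _ _).1 hX1
    simp only [Prod.mk.injEq] at hXe
    obtain ⟨e0, e1, e2, e3⟩ := hXe
    have k3 := hD2.trans (hcong 3)
    have x0 : X 0 = x := by have := hpos 0; omega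
    have x1 : X 1 = y := by have := hpos 1; omega
    have x2 : X 2 = z := by have := hpos 2; omega
    have x3 : X 3 = 2 * w' := by have := hpos 3; omega
    rw [Fin.sum_univ_four, x0, x1, x2, x3] at hsum
    have c0 := hcong 0
    have c1 := hcong 1
    have c2 := hcong 2
    rw [x0] at c0
    rw [x1] at c1
    rw [x2] at c2
    refine ⟨?_, c0, c1, c2, ?_⟩
    · have : (n : ℤ) = ((x ^ 2 + y ^ 2 + z ^ 2 + 4 * w' ^ 2 : ℕ) : ℤ) := by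
        push_cast
        linear_combination -hsum
      exact_mod_cast this
    · intro l hl1 hl2
      have h5 := hXG l ((mem_win Y Z l).2 ⟨hl1, hl2⟩)
      rw [x0, x1, x2] at h5
      have f1 : (((x : ℤ) : ℤ) : ZMod (l : ℕ)) = ((x : ℕ) : ZMod (l : ℕ)) := by push_cast; rfl
      have f2 : (((y : ℤ) : ℤ) : ZMod (l : ℕ)) = ((y : ℕ) : ZMod (l : ℕ)) := by push_cast; rfl
      have f3 : (((z : ℤ) : ℤ) : ZMod (l : ℕ)) = ((z : ℕ) : ZMod (l : ℕ)) := by push_cast; rfl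
      rw [f1, f2, f3] at h5
      exact h5

theorem coreV : ∃ C0 : ℝ, 0 < C0 ∧ ∃ Y0 : ℕ, ∀ (n K D m Y Z : ℕ) (u : Fin 4 → ℤ), Base n K D m u → 2 ∣ m → Odd n →
    Y0 ≤ Y → 12 ≤ Y → 1 ≤ Z → 200 * Z ≤ Y ^ 2 → Z < Y ^ 2 →
    (∀ l : ℕ, l.Prime → Y < l → ¬ l ∣ K) → (∀ l : ℕ, l.Prime → Y < l → l ≤ Z → ¬ l ^ 2 ∣ n) →
    ∀ B : ℕ → Prop, (∀ d k, B d → k ∣ d → B k) →
    (∀ d : ℕ, 0 < d → d ≤ Z → (∀ p : ℕ, p.Prime → p ∣ d → p ≤ Y) → B d → d ∣ K) →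
    ∀ E0 : ℝ, 100 * (Z : ℝ) * ∑ l ∈ win Y Z, (((l : ℕ) : ℝ) ^ 2)⁻¹ ≤ E0 →
    ∀ r : ℕ, Odd r → 5 * E0 + 1 ≤ ((r + 1 : ℕ) : ℝ) →
    ∃ (D' : ℕ) (u' : Fin 4 → ℤ), 0 < D' ∧ 4 ∣ D' ∧ D' ≤ (12 * K * (10000 * (Z + 1) ^ 5)) ^ 71 ∧ GoodG n D' u' ∧
      ∃ T : Finset (ℕ × ℕ × ℕ × ℕ),
      ((repsc n D' u').card : ℝ) * (1 / 2 * Real.exp (-(2 * E0))) -
        ((((r + 1) * (Z + 1) ^ r : ℕ) : ℝ) * ((50 * (Z : ℝ) ^ 2 + 1) ^ r *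
          (C0 * ((D' * Z ^ r : ℕ) : ℝ) ^ 11 * (n : ℝ) ^ (19 / 20 : ℝ)))) ≤ 25 * (T.card : ℝ) ∧
      ∀ x y z w : ℕ, (x, y, z, w) ∈ T → n = x ^ 2 + y ^ 2 + z ^ 2 + 4 * w ^ 2 ∧
        ∀ q : ℕ, q.Prime → q ∣ 2 ^ x + 2 ^ y + 2 ^ z + 1 → q ≤ Z →
          (q ≠ 2 ∧ ¬ B (orderOf (2 : ZMod q))) ∧ Nat.Coprime (2 ^ x + 2 ^ y + 2 ^ z + 1) m := by
  classical
  obtain ⟨C0, hC0, hsv⟩ := sieveG
  obtain ⟨Y0, hsel⟩ := sel2
  refine ⟨C0, hC0, Y0, ?_⟩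
  intro n K D m Y Z u hb hm2 hno hY0 hY hZ hYZ hZY hlK hln B hBc hBK E0 hE0 r hr hrE
  have hDl : ∀ l : ℕ, l.Prime → Y < l → ¬ l ∣ D := by
    intro l hl hlY h2
    rw [hb.D12] at h2
    rcases (Nat.Prime.dvd_mul hl).1 h2 with h3 | h3
    · have := Nat.le_of_dvd (by norm_num) h3
      have h12 : l ∣ 2 * 2 * 3 := by exact h3
      rcases (Nat.Prime.dvd_mul hl).1 h12 with h4 | h4
      · rcases (Nat.Prime.dvd_mul hl).1 h4 with h5 | h5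
        · have := Nat.le_of_dvd (by norm_num) h5
          omega
        · have := Nat.le_of_dvd (by norm_num) h5
          omega
      · have := Nat.le_of_dvd (by norm_num) h4
        omega
    · exact hlK _ hl hlY h3
  have hJ1 : 1 ≤ 10000 * (Z + 1) ^ 5 := by
    have : 1 ≤ (Z + 1) ^ 5 := Nat.one_le_pow _ _ (by omega)
    omega
  obtain ⟨D', P, Q, N, P', Q', N', r1, r2, c12, hD'e, hD'0, h4D', hD'J, hD'l⟩ :=
    setup D (10000 * (Z + 1) ^ 5) Y Z hb.D0 hb.D4 hJ1 (hsel Y Z hY0 hZY.le) hDl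
  obtain ⟨u', hu', hdiv, hG⟩ := engine n D hb.D4 u hb.good P Q N P' Q' N' r1 r2 c12 D' hD'e
  have hwin : ∀ l ∈ win Y Z, ¬ (l : ℕ) ∣ D' := by
    intro l hl hd
    have hl' := (mem_win Y Z l).1 hl
    exact hD'l l l.2 hl'.1 hl'.2 hd
  have hND : N ∣ (D' : ℤ) := by rw [hD'e]; exact ⟨D * N * N' ^ 2, by ring⟩
  have hND' : N' ∣ (D' : ℤ) := by rw [hD'e]; exact ⟨D * N ^ 2 * N', by ring⟩
  have hlN : ∀ l ∈ win Y Z, ¬ (((l : ℕ) : ℤ) ∣ N) := by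
    intro l hl' hd
    exact hwin l hl' (Int.natCast_dvd_natCast.1 (hd.trans hND))
  have hlN' : ∀ l ∈ win Y Z, ¬ (((l : ℕ) : ℤ) ∣ N') := by
    intro l hl' hd
    exact hwin l hl' (Int.natCast_dvd_natCast.1 (hd.trans hND'))
  obtain ⟨S, hS, hScard, hSG⟩ := hsv n Y Z hno.pos D' hD'0 h4D' u' hu'
    (fun l => BB3 n K Z u P Q N P' Q' N' (l : ℕ))
    (fun l _ x hx => ((mem_BB3 _ _ _ _ _ _ _ _ _ _ _ _).1 hx).1)
    (fun l hl => card_BB3 n K Z u P Q N P' Q' N' r1.sq r2.sq (l : ℕ)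
      (hlK _ l.2 ((mem_win Y Z l).1 hl).1) (hlN l hl) (hlN' l hl))
    hwin hY hZ hYZ E0 hE0 r hr hrE
  have hSG' : ∀ X ∈ S, ∀ k, ∀ l ∈ win Y Z,
      ((((rotv P Q N P' Q' N' k X 0 : ℤ) : ZMod (l : ℕ)), ((rotv P Q N P' Q' N' k X 1 : ℤ) : ZMod (l : ℕ)),
      ((rotv P Q N P' Q' N' k X 2 : ℤ) : ZMod (l : ℕ))) : ZMod (l : ℕ) × ZMod (l : ℕ) × ZMod (l : ℕ)) ∉ bad3 K Z u (l : ℕ) := by
    intro X hX k l hl
    have hl' := (mem_win Y Z l).1 hl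
    exact good_rot3 n K Z u P Q N P' Q' N' X ((mem_repsc _ _ _ _).1 (hS hX)).1 (hdiv X (hS hX)) (l : ℕ)
      (hln l l.2 hl'.1 hl'.2) r1.hN.ne' r2.hN.ne' (hSG X hX l hl) k
  have hcard := hG (fun W => ∀ l ∈ win Y Z, ((((W 0 : ℤ) : ZMod (l : ℕ)), ((W 1 : ℤ) : ZMod (l : ℕ)), ((W 2 : ℤ) : ZMod (l : ℕ))) :
    ZMod (l : ℕ) × ZMod (l : ℕ) × ZMod (l : ℕ)) ∉ bad3 K Z u (l : ℕ)) S hS (fun X hX k => hSG' X hX k)
  have hD2 : (2 : ℤ) ∣ (D : ℤ) := by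
    have h4 : ((4 : ℕ) : ℤ) ∣ (D : ℤ) := Int.natCast_dvd_natCast.2 hb.D4
    exact dvd_trans (by norm_num) h4
  obtain ⟨T, hT1, hT2⟩ := quads3 n K D Z Y u u hD2 hb.u3
    ((orth n D u).filter (fun W => ∀ l ∈ win Y Z, ((((W 0 : ℤ) : ZMod (l : ℕ)), ((W 1 : ℤ) : ZMod (l : ℕ)), ((W 2 : ℤ) : ZMod (l : ℕ))) :
    ZMod (l : ℕ) × ZMod (l : ℕ) × ZMod (l : ℕ)) ∉ bad3 K Z u (l : ℕ)))
    (fun W hW => by rw [Finset.mem_filter] at hW; exact hW)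
  refine ⟨D', u', hD'0, h4D', ?_, hu', T, ?_, ?_⟩
  · rw [← hb.D12]
    exact hD'J
  · rw [hT1]
    refine hScard.trans ?_
    exact_mod_cast hcard
  · intro x y z w hxyzw
    obtain ⟨g1, g2, g3, g4, g5⟩ := hT2 x y z w hxyzw
    refine ⟨g1, fun q hq hqN hqZ => ⟨?_, ?_⟩⟩
    · exact no_small3 hb hm2 B hBc hBK hZY x y z g2 g3 g4 g5 q hq hqN hqZ
    · exact Nat.Coprime.coprime_dvd_right (dvd_mul_right _ _) (hb.cop x y z g2 g3 g4)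

end Pool.Agent.R154.FV
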