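import Pool.Agent.R154.FV.CoreV
import Pool.Agent.R154.FV.Base
import Pool.Agent.R154.FT.Fin
import Pool.Agent.R154.FT.Num3
import Pool.Agent.R154.FT.Main3
import Pool.Agent.Y440.LC.Main2

/-!
# `n = x² + y² + z² + 4w²` with control of the prime factors of `2^x + 2^y + 2^z + 1` up to `c (log n)²`
-/

set_option autoImplicit false
open Finset

namespace Pool.Agent.R154.FV
open Pool.Agent.W65.FS Pool.Agent.TH696.FA Pool.Agent.R154.FT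

theorem numV (ε : ℝ) (hε : 0 < ε) : ∃ κ : ℝ, 0 < κ ∧ κ ≤ 1 ∧ ∃ n0 : ℕ, ∀ n : ℕ, n0 ≤ n → Odd n →
    ∀ Y Z : ℕ, Y = ⌊κ * Real.log n⌋₊ → Z = Y ^ 2 / 200000 →
    12 ≤ Y ∧ Z < Y ^ 2 ∧ Y ^ 2 < 200000 * (Z + 1) ∧
    ∀ (K D m : ℕ) (u : Fin 4 → ℤ), Base n K D m u → 2 ∣ m → K ∣ (Nat.lcmUpto Y) ^ 3 →
      (∀ l : ℕ, l.Prime → Y < l → l ≤ Z → ¬ l ^ 2 ∣ n) →
      ∀ B : ℕ → Prop, (∀ d k, B d → k ∣ d → B k) →
      (∀ d : ℕ, 0 < d → d ≤ Z → (∀ p : ℕ, p.Prime → p ∣ d → p ≤ Y) → B d → d ∣ K) →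
      ∃ T : Finset (ℕ × ℕ × ℕ × ℕ), (n : ℝ) ^ (1 - ε) ≤ (T.card : ℝ) ∧
      ∀ x y z w : ℕ, (x, y, z, w) ∈ T → n = x ^ 2 + y ^ 2 + z ^ 2 + 4 * w ^ 2 ∧
        ∀ q : ℕ, q.Prime → q ∣ 2 ^ x + 2 ^ y + 2 ^ z + 1 → q ≤ Z →
          (q ≠ 2 ∧ ¬ B (orderOf (2 : ZMod q))) ∧ Nat.Coprime (2 ^ x + 2 ^ y + 2 ^ z + 1) m := by
  obtain ⟨C0, hC0, Y0, hcore⟩ := coreV
  set e : ℝ := min ε (1 / 100) with he
  have he0 : 0 < e := lt_min hε (by norm_num)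
  have he1 : e ≤ 1 / 100 := min_le_right _ _
  obtain ⟨c1, C1, hc1, hC1, hcl⟩ := class_lower (e / 4) (by positivity)
  set t : ℝ := e / 100 with ht
  have ht0 : 0 < t := by positivity
  obtain ⟨n1, hn1⟩ := fin_num ε c1 C1 C0 e t hc1 hC0 he0 (min_le_left _ _) (min_le_right _ _) ht
  obtain ⟨Y1, hY1⟩ := facts3
  set κ : ℝ := t / 1420 with hκ
  have hκ0 : 0 < κ := by positivity
  have hκ1 : κ ≤ 1 := by
    rw [hκ, ht, div_le_one (by norm_num)]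
    linarith
  obtain ⟨n2, hn2⟩ := large_log κ hκ0 ((Y0 + Y1 + 2 : ℕ) : ℝ)
  refine ⟨κ, hκ0, hκ1, n1 + n2 + 1, ?_⟩
  intro n hn hno Y Z hY hZ
  have hnr : (1 : ℝ) ≤ n := by exact_mod_cast hno.pos
  have hn0 : (0 : ℝ) < n := by linarith
  have hlog0 : 0 ≤ Real.log n := Real.log_nonneg hnr
  have hYM : Y0 + Y1 + 2 ≤ Y := by
    rw [hY]
    exact Nat.le_floor (hn2 n (by omega))
  have hYle : (Y : ℝ) ≤ κ * Real.log n := by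
    rw [hY]
    exact Nat.floor_le (by positivity)
  obtain ⟨hY12, hfacts⟩ := hY1 Y (by omega)
  obtain ⟨hZ1, hZ200, hZlt, hZexp, E0, r, hE0, hE1, hr, hrE, hV⟩ := hfacts Z hZ
  have hM : Mod ((Nat.lcmUpto Y) ^ 3) Y Z := mod_inst Y Z (by omega) (by omega)
  refine ⟨hY12, by omega, hZlt, ?_⟩
  intro K D m u hb hm2 hKl hln B hBc hBK
  have hr1 : 1 ≤ r := hr.pos
  have hY12r : (12 : ℝ) ≤ Y := by exact_mod_cast hY12
  have hlK : ∀ l : ℕ, l.Prime → Y < l → ¬ l ∣ K := fun l hl hlY hd => hM.nd l hl hlY (hd.trans hKl)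
  obtain ⟨D', u', hD'0, h4, hD'le, hu', T, hT1, hT2⟩ :=
    hcore n K D m Y Z u hb hm2 hno (by omega) hY12 hZ1 hZ200 (by omega) hlK hln B hBc hBK E0 hE1 r hr hrE
  have hexp : Real.exp (1420 * Y) ≤ (n : ℝ) ^ t := by
    rw [Real.rpow_def_of_pos hn0]
    apply Real.exp_le_exp.2
    have h1 : 1420 * (κ * Real.log n) = Real.log n * t := by
      rw [hκ]
      ring
    linarith
  have hK3 : (K : ℝ) ≤ Real.exp (18 * Y) := by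
    have h1 : K ≤ (Nat.lcmUpto Y) ^ 3 := Nat.le_of_dvd hM.pos hKl
    have h2 : (K : ℝ) ≤ ((((Nat.lcmUpto Y) ^ 3 : ℕ)) : ℝ) := by exact_mod_cast h1
    exact h2.trans (lcm_exp Y)
  have hexp3 : (3 : ℝ) ≤ Real.exp Y := by
    have := Real.add_one_le_exp (Y : ℝ)
    linarith
  have hD'n : (D' : ℝ) ≤ (n : ℝ) ^ t := by
    refine le_trans ?_ hexp
    have h1 : (D' : ℝ) ≤ ((12 * K * (10000 * (Z + 1) ^ 5) : ℕ) : ℝ) ^ 71 := by exact_mod_cast hD'le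
    have h2 : ((12 * K * (10000 * (Z + 1) ^ 5) : ℕ) : ℝ) ≤ Real.exp (20 * Y) := by
      have e1 : ((12 * K * (10000 * (Z + 1) ^ 5) : ℕ) : ℝ) =
        (K : ℝ) * (3 * (40000 * ((Z : ℝ) + 1) ^ 5)) := by push_cast; ring
      rw [e1]
      calc (K : ℝ) * (3 * (40000 * ((Z : ℝ) + 1) ^ 5)) ≤ Real.exp (18 * Y) * (Real.exp Y * Real.exp Y) := by
            gcongr
        _ = Real.exp (20 * Y) := by rw [← Real.exp_add, ← Real.exp_add]; congr 1; ring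
    calc (D' : ℝ) ≤ ((12 * K * (10000 * (Z + 1) ^ 5) : ℕ) : ℝ) ^ 71 := h1
      _ ≤ (Real.exp (20 * Y)) ^ 71 := by gcongr
      _ = Real.exp (1420 * Y) := by
          rw [← Real.exp_nat_mul]
          congr 1
          push_cast
          ring
  have hVn : ((Y : ℝ) + 1) ^ (30 * r) ≤ (n : ℝ) ^ t := by
    refine hV.trans (le_trans ?_ hexp)
    apply Real.exp_le_exp.2
    linarith
  have hV1 : 1 ≤ ((Y : ℝ) + 1) ^ (30 * r) := one_le_pow₀ (by linarith)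
  have hD'1 : (1 : ℝ) ≤ D' := by exact_mod_cast hD'0
  have hlow := hcl n D' hno hD'0 h4 u' hu'
  have hup : ((repsc n D' u').card : ℝ) * (1 / ((Y : ℝ) + 1) ^ (30 * r)) -
      ((Y : ℝ) + 1) ^ (30 * r) * (C0 * (D' : ℝ) ^ 11 * (n : ℝ) ^ (19 / 20 : ℝ)) ≤ 25 * (T.card : ℝ) := by
    have h1 := V_main3 Y r E0 hY12 hr1 hrE
    have h2 := V_err Y Z r D' ((n : ℝ) ^ (19 / 20 : ℝ)) C0 hC0 (by positivity) hY12 hZ200
    have h3 : ((repsc n D' u').card : ℝ) * (1 / ((Y : ℝ) + 1) ^ (30 * r)) ≤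
        ((repsc n D' u').card : ℝ) * (1 / 2 * Real.exp (-(2 * E0))) := by gcongr
    linarith
  exact ⟨T, hn1 n (by omega) _ _ _ _ (Nat.cast_nonneg _) hV1 hVn hD'1 hD'n hlow hup, hT2⟩

open Pool.Agent.Y440.LC in
theorem mainV (ε : ℝ) (hε : 0 < ε) : ∃ c : ℝ, 0 < c ∧ ∃ n0 : ℕ, ∀ n : ℕ, n0 ≤ n → Odd n →
    (∀ l : ℕ, l.Prime → c * Real.log n < l → (l : ℝ) ≤ (Real.log n) ^ 2 → ¬ l ^ 2 ∣ n) →
    ∃ S : Finset (ℕ × ℕ × ℕ × ℕ), (n : ℝ) ^ (1 - ε) ≤ (S.card : ℝ) ∧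
      ∀ x y z w : ℕ, (x, y, z, w) ∈ S → n = x ^ 2 + y ^ 2 + z ^ 2 + 4 * w ^ 2 ∧
        ∀ q : ℕ, q.Prime → q ∣ 2 ^ x + 2 ^ y + 2 ^ z + 1 → (q : ℝ) ≤ c * (Real.log n) ^ 2 →
          q ≠ 2 ∧ (Exc n (orderOf (2 : ZMod q)) ∨
            (¬ 3 ∣ n ∧ n % 32 ≠ 13 ∧ q ≠ 7 ∧ 3 ∣ orderOf (2 : ZMod q))) := by
  classical
  obtain ⟨κ, hκ0, hκ1, n0, hmain⟩ := numV ε hε
  have hcκ : (κ / 2) ^ 2 / 200000 ≤ κ := by
    rw [div_le_iff₀ (by norm_num)]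
    nlinarith
  refine ⟨(κ / 2) ^ 2 / 200000, by positivity, n0 + 1, ?_⟩
  intro n hn hno hsqf
  have hnr : (1 : ℝ) ≤ n := by exact_mod_cast hno.pos
  have hlog0 : 0 ≤ Real.log n := Real.log_nonneg hnr
  obtain ⟨Y, hY⟩ : ∃ Y : ℕ, Y = ⌊κ * Real.log n⌋₊ := ⟨_, rfl⟩
  obtain ⟨Z, hZ⟩ : ∃ Z : ℕ, Z = Y ^ 2 / 200000 := ⟨_, rfl⟩
  obtain ⟨hY12, hZY, hZlt, hT⟩ := hmain n (by omega) hno Y Z hY hZ
  have hYle : (Y : ℝ) ≤ κ * Real.log n := by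
    rw [hY]
    exact Nat.floor_le (by positivity)
  have hYlt : κ * Real.log n < Y + 1 := by
    rw [hY]
    exact Nat.lt_floor_add_one _
  have hY1r : (1 : ℝ) ≤ Y := by exact_mod_cast (by omega : 1 ≤ Y)
  have hYhalf : κ / 2 * Real.log n ≤ Y := by linarith
  have hM : Mod ((Nat.lcmUpto Y) ^ 3) Y Z := mod_inst Y Z (by omega) hZY
  obtain ⟨Λ, hΛ⟩ : ∃ Λ : ℕ, Λ = (Nat.lcmUpto Y) ^ 3 := ⟨_, rfl⟩
  rw [← hΛ] at hM
  rw [← hΛ] at hT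
  have hΛ0 : 0 < Λ := hM.pos
  have hln : ∀ l : ℕ, l.Prime → Y < l → l ≤ Z → ¬ l ^ 2 ∣ n := by
    intro l hl hlY hlZ
    apply hsqf l hl
    · have h1 : ((Y : ℝ) + 1) ≤ l := by exact_mod_cast hlY
      have h2 : (κ / 2) ^ 2 / 200000 * Real.log n ≤ κ * Real.log n := by gcongr
      linarith
    · have h1 : (l : ℝ) ≤ (Y : ℝ) ^ 2 := by
        have : l ≤ Y ^ 2 := by omega
        exact_mod_cast this
      have h2 : (Y : ℝ) ≤ Real.log n := by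
        calc (Y : ℝ) ≤ κ * Real.log n := hYle
          _ ≤ 1 * Real.log n := by gcongr
          _ = Real.log n := one_mul _
      calc (l : ℝ) ≤ (Y : ℝ) ^ 2 := h1
        _ ≤ (Real.log n) ^ 2 := by gcongr
  have hqZ : ∀ q : ℕ, (q : ℝ) ≤ (κ / 2) ^ 2 / 200000 * (Real.log n) ^ 2 → q ≤ Z := by
    intro q hq
    have h3 : (Y : ℝ) ^ 2 < 200000 * ((Z : ℝ) + 1) := by exact_mod_cast hZlt
    have h4 : (q : ℝ) < ((Z + 1 : ℕ) : ℝ) := by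
      calc (q : ℝ) ≤ (κ / 2) ^ 2 / 200000 * (Real.log n) ^ 2 := hq
        _ = (κ / 2 * Real.log n) ^ 2 / 200000 := by ring
        _ ≤ (Y : ℝ) ^ 2 / 200000 := by gcongr
        _ < (Z : ℝ) + 1 := by
            rw [div_lt_iff₀ (by norm_num)]
            linarith
        _ = ((Z + 1 : ℕ) : ℝ) := by push_cast; ring
    have h5 : q < Z + 1 := by exact_mod_cast h4
    omega
  have hsq : ∀ (B : ℕ → Prop) [DecidablePred B], (∀ b, B b → ¬ Exc n b) →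
      ∀ l : ℕ, l.Prime → 5 ≤ l → l ^ 2 ∣ KD B Λ → ¬ (l : ℤ) ∣ (3 * n - 2) * (9 * n - 2) := by
    intro B _ hB l hl hl5 hlK hd
    refine prime_pow_dvd_lcm l 2 hl ((Nat.divisors Λ).filter B) ?_ ?_ (by norm_num) hlK
    · intro b hb
      exact (Nat.pos_of_mem_divisors (Finset.mem_filter.1 hb).1).ne'
    · intro b hb hlb
      exact hB b (Finset.mem_filter.1 hb).2 ⟨l, hl, hl5, hlb, hd⟩
  have hBK : ∀ (B : ℕ → Prop) [DecidablePred B], ∀ d : ℕ, 0 < d → d ≤ Z →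
      (∀ p : ℕ, p.Prime → p ∣ d → p ≤ Y) → B d → d ∣ KD B Λ := by
    intro B _ d hd hdZ hp hBd
    unfold KD
    exact Finset.dvd_lcm (f := id) (Finset.mem_filter.2 ⟨Nat.mem_divisors.2 ⟨hM.smooth d hd hdZ hp, hΛ0.ne'⟩, hBd⟩)
  have hexc : ∀ d k, ¬ Exc n d → k ∣ d → ¬ Exc n k := by
    rintro d k h1 h2 ⟨l, hl, hl5, hlk, hln'⟩
    exact h1 ⟨l, hl, hl5, hlk.trans h2, hln'⟩
  by_cases hres : 3 ∣ n ∨ n % 32 = 13
  · obtain ⟨D, u, hb⟩ := base2 n (KD (fun b => ¬ Exc n b) Λ) hno hres (KD_pos _ _ hΛ0) (hsq _ (fun b hb => hb))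
    obtain ⟨T, hT1, hT2⟩ := hT _ D 2 u hb (dvd_refl 2) (KD_dvd _ _) hln (fun b => ¬ Exc n b) hexc (hBK _)
    refine ⟨T, hT1, ?_⟩
    intro x y z w hxyzw
    obtain ⟨g1, g2⟩ := hT2 x y z w hxyzw
    refine ⟨g1, fun q hq hqN hqc => ?_⟩
    obtain ⟨⟨k1, k2⟩, -⟩ := g2 q hq hqN (hqZ q hqc)
    exact ⟨k1, Or.inl (not_not.1 k2)⟩
  · obtain ⟨D, u, hb⟩ := base3 n (KD (fun b => ¬ Exc n b ∧ ¬ 3 ∣ b) Λ) hno
      (by
        have := prime_pow_dvd_lcm 3 1 Nat.prime_three ((Nat.divisors Λ).filter (fun b => ¬ Exc n b ∧ ¬ 3 ∣ b)) ?_ ?_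
          (by norm_num)
        · rw [pow_one] at this
          exact this
        · intro b hb
          exact (Nat.pos_of_mem_divisors (Finset.mem_filter.1 hb).1).ne'
        · intro b hb
          rw [pow_one]
          exact (Finset.mem_filter.1 hb).2.2)
      (KD_pos _ _ hΛ0) (hsq _ (fun b hb => hb.1))
    obtain ⟨T, hT1, hT2⟩ := hT _ D 14 u hb (by norm_num) (KD_dvd _ _) hln (fun b => ¬ Exc n b ∧ ¬ 3 ∣ b)
      (fun d k h1 h2 => ⟨hexc d k h1.1 h2, fun h3 => h1.2 (h3.trans h2)⟩) (hBK _)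
    refine ⟨T, hT1, ?_⟩
    intro x y z w hxyzw
    obtain ⟨g1, g2⟩ := hT2 x y z w hxyzw
    refine ⟨g1, fun q hq hqN hqc => ?_⟩
    obtain ⟨⟨k1, k2⟩, k3⟩ := g2 q hq hqN (hqZ q hqc)
    push Not at hres
    have hq7 : q ≠ 7 := by
      intro h7
      rw [h7] at hqN
      have h8 : Nat.Coprime 7 14 := Nat.Coprime.coprime_dvd_left hqN k3
      norm_num at h8
    refine ⟨k1, ?_⟩
    by_cases hE : Exc n (orderOf (2 : ZMod q))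
    · exact Or.inl hE
    · refine Or.inr ⟨hres.1, hres.2, hq7, ?_⟩
      by_contra h3
      exact k2 ⟨hE, h3⟩

end Pool.Agent.R154.FV
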